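import Pool.Agent.Helper74.HG.GoalsC

/-!
# Project HG, part 2 (MP_aa7fc1_ag), packet ZSP: specialisation of the zeta function data
-/

set_option autoImplicit false

namespace Pool.Agent.Helper99.HG.ZSP

open MvPolynomial Pool.Agent.Helper74.HG

theorem incl_comp {A B : Subring ℂ} (h : A ≤ B) :
    B.subtype.comp (Subring.inclusion h) = A.subtype := by
  apply RingHom.ext
  intro x
  rw [RingHom.comp_apply, Subring.subtype_apply, Subring.coe_inclusion, Subring.subtype_apply]

theorem eq_map {σ : Type} {A B : Subring ℂ} (h : A ≤ B) (g : MvPolynomial σ A)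
    (g' : MvPolynomial σ B) (hg : map B.subtype g' = map A.subtype g) :
    g' = map (Subring.inclusion h) g := by
  apply map_injective B.subtype Subtype.val_injective
  rw [hg, map_map, incl_comp]

theorem mem_of_gen (t : Set ℂ) (θ : Subring.closure t →+* ℂ) (S : Subring ℂ)
    (h : ∀ (x : ℂ) (hx : x ∈ t), θ ⟨x, Subring.subset_closure hx⟩ ∈ S)
    (a : Subring.closure t) : θ a ∈ S := by
  have h2 : Subring.closure t ≤ (S.comap θ).map (Subring.closure t).subtype := by
    refine Subring.closure_le.2 ?_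
    intro x hx
    exact ⟨⟨x, Subring.subset_closure hx⟩, h x hx, rfl⟩
  obtain ⟨b, hb, hba⟩ := h2 a.2
  have : b = a := Subtype.ext hba
  rw [← this]
  exact hb

theorem exists_map {σ : Type} {B S : Subring ℂ} (θ : B →+* ℂ) (hθ : ∀ a : B, θ a ∈ S) :
    ∃ θ' : B →+* S, ∀ g' : MvPolynomial σ B, map S.subtype (map θ' g') = map θ g' := by
  refine ⟨θ.codRestrict S hθ, fun g' => ?_⟩
  rw [map_map]
  have h : S.subtype.comp (θ.codRestrict S hθ) = θ := by
    apply RingHom.ext
    intro x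
    rw [RingHom.comp_apply, Subring.subtype_apply]
    rfl
  rw [h]

theorem form_map {σ : Type} [Fintype σ] {A B S : Subring ℂ} (i : A →+* B) (θ' : B →+* S)
    (g : MvPolynomial σ A) (g' : MvPolynomial σ B) (hgg : g' = map i g) (L : List Str)
    (hF : ∀ (K : Type) [Field K] [Finite K] (ψ : A →+* K), Form K (map ψ g) L)
    (K : Type) [Field K] [Finite K] (ψ : S →+* K) : Form K (map ψ (map θ' g')) L := by
  have h : map ψ (map θ' g') = map ((ψ.comp θ').comp i) g := by
    rw [hgg, map_map, map_map]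
  rw [h]
  exact hF K _

/-- **ZSP** -/
theorem t : Pool.Agent.Helper74.HG.ZSP := by
  classical
  intro σ _ f Z hZ
  obtain ⟨s, g, L, hg, hL, hF, hZL⟩ := hZ
  refine ⟨s, fun s' hs θ g' hg' => ?_⟩
  have hs'' : ∃ s'' : Finset ℂ, ∀ (x : ℂ) (hx : x ∈ (s' : Set ℂ)),
      θ ⟨x, Subring.subset_closure hx⟩ ∈ Rg s'' := by
    refine ⟨s'.attach.image (fun x => θ ⟨x.1, Subring.subset_closure x.2⟩), fun x hx => ?_⟩
    apply Subring.subset_closure
    exact Finset.mem_coe.2 (Finset.mem_image.2 ⟨⟨x, hx⟩, Finset.mem_attach _ _, rfl⟩)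
  obtain ⟨s'', hs''⟩ := hs''
  have hθ : ∀ a : Rg s', θ a ∈ Rg s'' := mem_of_gen (s' : Set ℂ) θ (Rg s'') hs''
  obtain ⟨θ', hθ'⟩ := exists_map (σ := σ) θ hθ
  have hle : Rg s ≤ Rg s' := Subring.closure_mono (Finset.coe_subset.2 hs)
  have hgg : g' = map (Subring.inclusion hle) g := eq_map hle g g' (hg'.trans hg.symm)
  exact ⟨s'', map θ' g', L, hθ' g', hL, fun K _ _ ψ =>
    form_map (Subring.inclusion hle) θ' g g' hgg L hF K ψ, hZL⟩

end Pool.Agent.Helper99.HG.ZSP
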